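import Pool.Agent.helper52.WP.SpecA

set_option autoImplicit false

open Complex Metric Set Filter Topology MeasureTheory
open V3S (UF)
open WP

noncomputable section

namespace WPA

theorem ITB : ITB_stmt := by
  intro f
  have h1 : ∀ z, it f 1 z = f.eval z := fun z => rfl
  have h2 : ∀ (i j : ℕ) (z : ℂ), it f (i + j) z = it f i (it f j z) := by
    intro i j z
    exact Function.iterate_add_apply _ i j z
  have h7 : ∀ j, ∃ Q : Polynomial ℂ, Q.natDegree = f.natDegree ^ j ∧ ∀ z, it f j z = Q.eval z := by
    intro j
    induction j with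
    | zero =>
      refine ⟨Polynomial.X, by simp, fun z => ?_⟩
      rw [Polynomial.eval_X]; rfl
    | succ j ih =>
      obtain ⟨Q, hQ, hQ'⟩ := ih
      refine ⟨Q.comp f, ?_, fun z => ?_⟩
      · rw [Polynomial.natDegree_comp, hQ, pow_succ]
      · rw [Polynomial.eval_comp, ← hQ', h2, h1]
  have h3 : ∀ j, Differentiable ℂ (it f j) := by
    intro j
    obtain ⟨Q, -, hQ⟩ := h7 j
    have : it f j = fun z => Q.eval z := funext hQ
    rw [this]
    exact Q.differentiable
  refine ⟨fun z => rfl, h1, h2, h3, ?_, ?_, h7, ?_⟩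
  · intro i j z
    have e : it f (i + j) = it f i ∘ it f j := funext (h2 i j)
    rw [e, deriv_comp z (h3 i _) (h3 j z)]
  · intro z
    have e : it f 0 = id := funext fun z => rfl
    rw [e, deriv_id]
  · intro S j k hjk hk x hx y hy hxy
    apply hk hx hy
    have e : k = (k - j) + j := by omega
    rw [e, h2, h2, hxy]

end WPA
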