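import Pool.Agent.helper52.WP.SpecA

set_option autoImplicit false

open Complex Metric Set Filter Topology MeasureTheory
open V3S (UF)
open WP

noncomputable section

namespace WPA

theorem CHN_prim (Q : Polynomial ℂ) : ∃ P : Polynomial ℂ, Polynomial.derivative P = Q := by
  induction Q using Polynomial.induction_on' with
  | add p q hp hq =>
    obtain ⟨P, hP⟩ := hp
    obtain ⟨P', hP'⟩ := hq
    exact ⟨P + P', by rw [Polynomial.derivative_add, hP, hP']⟩
  | monomial n a =>
    refine ⟨Polynomial.monomial (n + 1) (a / ((n : ℂ) + 1)), ?_⟩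
    rw [Polynomial.derivative_monomial]
    have h : (n : ℂ) + 1 ≠ 0 := by exact_mod_cast Nat.succ_ne_zero n
    congr 1
    push_cast
    field_simp

theorem CHN_int (V Q : Polynomial ℂ) (hV : Polynomial.derivative V = Q) (G : ℂ → ℂ) (hG : Differentiable ℂ G) (y v : ℂ) :
    (∫ s in (0 : ℝ)..1, Q.eval (G (y + s * v)) * (deriv G (y + s * v) * v)) = V.eval (G (y + v)) - V.eval (G y) := by
  have hl : ∀ s : ℝ, HasDerivAt (fun t : ℝ => y + (t : ℂ) * v) v s := by
    intro s
    have h1 : HasDerivAt (fun t : ℝ => (t : ℂ)) 1 s := (hasDerivAt_id s).ofReal_comp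
    have h2 := (h1.mul_const v).const_add y
    rw [one_mul] at h2
    exact h2
  have hd : ∀ s : ℝ, HasDerivAt (fun t : ℝ => V.eval (G (y + (t : ℂ) * v))) (Q.eval (G (y + s * v)) * (deriv G (y + s * v) * v)) s := by
    intro s
    have h1 : HasDerivAt (fun z : ℂ => V.eval z) (Q.eval (G (y + s * v))) (G (y + s * v)) := by
      rw [← hV]
      exact V.hasDerivAt _
    have h2 : HasDerivAt G (deriv G (y + s * v)) (y + s * v) := (hG _).hasDerivAt
    have h3 := h2.scomp_of_eq s (hl s) rfl
    have h4 := h1.comp (y + s * v) h2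
    have h5 := HasDerivAt.scomp_of_eq s h4 (hl s) rfl
    have e : v • (Q.eval (G (y + s * v)) * deriv G (y + s * v)) = Q.eval (G (y + s * v)) * (deriv G (y + s * v) * v) := by
      rw [smul_eq_mul]; ring
    rw [e] at h5
    exact h5
  have hcd : Continuous (deriv G) := (hG.contDiff (n := 1)).continuous_deriv (le_refl _)
  have hcl : Continuous (fun t : ℝ => y + (t : ℂ) * v) := by fun_prop
  have hc : Continuous (fun s : ℝ => Q.eval (G (y + s * v)) * (deriv G (y + s * v) * v)) := by
    apply Continuous.mul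
    · exact Q.continuous.comp (hG.continuous.comp hcl)
    · exact (hcd.comp hcl).mul continuous_const
  rw [intervalIntegral.integral_eq_sub_of_hasDerivAt (fun s _ => hd s) (hc.intervalIntegrable _ _)]
  simp

theorem CHN (hITB : ITB_stmt) : CHN_stmt := by
  intro f Q k m y
  obtain ⟨V, hV⟩ := CHN_prim Q
  obtain ⟨-, -, hadd, hdiff, -, -, -, -⟩ := hITB f
  have key : ∀ k m : ℕ, ∑ q ∈ Finset.range k, (∫ s in (0 : ℝ)..1, Q.eval (it f q (y + s * (it f m y - y))) *
      (deriv (it f q) (y + s * (it f m y - y)) * (it f m y - y))) =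
      ∑ q ∈ Finset.range (m + k), V.eval (it f q y) - ∑ q ∈ Finset.range m, V.eval (it f q y) -
        ∑ q ∈ Finset.range k, V.eval (it f q y) := by
    intro k m
    have h1 : ∀ q ∈ Finset.range k, (∫ s in (0 : ℝ)..1, Q.eval (it f q (y + s * (it f m y - y))) *
      (deriv (it f q) (y + s * (it f m y - y)) * (it f m y - y))) = V.eval (it f (m + q) y) - V.eval (it f q y) := by
      intro q _
      rw [CHN_int V Q hV (it f q) (hdiff q) y (it f m y - y)]
      have e : y + (it f m y - y) = it f m y := by ring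
      rw [e, ← hadd, Nat.add_comm q m]
    rw [Finset.sum_congr rfl h1, Finset.sum_sub_distrib, Finset.sum_range_add]
    ring
  rw [key k m, key m k, Nat.add_comm m k]
  ring

end WPA
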