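import Pool.Agent.helper52.WP.SpecA

set_option autoImplicit false

open Complex Metric Set Filter Topology MeasureTheory
open V3S (UF)
open WP

noncomputable section

namespace WPA

theorem RHO_loc (F : ℂ → ℂ) (hF : Differentiable ℂ F) (w : ℂ) (h : deriv F w ≠ 0) : ∃ s > (0 : ℝ), InjOn F (ball w s) := by
  have h1 : HasStrictDerivAt F (deriv F w) w := (hF.analyticAt w).hasStrictDerivAt
  obtain ⟨s, hs, hb⟩ := Metric.eventually_nhds_iff_ball.mp (h1.eventually_left_inverse h)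
  refine ⟨s, hs, fun x hx y hy hxy => ?_⟩
  have e1 := hb x hx
  have e2 := hb y hy
  rw [hxy] at e1
  exact e1.symm.trans e2

theorem RHO (hESC : ESC_stmt) (hITB : ITB_stmt) : RHO_stmt := by
  intro n c k hn hc hk
  obtain ⟨-, -, -, hesc⟩ := hESC n c hn hc
  obtain ⟨-, -, -, hdiff, -, -, -, -⟩ := hITB (GR.fp n c)
  set F := it (GR.fp n c) k with hF
  have hbdd : ∀ w, BddAbove {s : ℝ | 0 ≤ s ∧ InjOn F (ball w s)} := fun w => ⟨‖w‖, fun s hs => hesc k w s hk hs.2⟩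
  have hne : ∀ w, (0 : ℝ) ∈ {s : ℝ | 0 ≤ s ∧ InjOn F (ball w s)} := by
    intro w
    refine ⟨le_refl _, ?_⟩
    rw [ball_zero]
    exact fun x hx => absurd hx (Set.notMem_empty x)
  have h0 : ∀ w, 0 ≤ rh (GR.fp n c) k w := fun w => le_csSup (hbdd w) (hne w)
  have h1 : ∀ w, rh (GR.fp n c) k w ≤ ‖w‖ := fun w => csSup_le ⟨0, hne w⟩ (fun s hs => hesc k w s hk hs.2)
  have h2 : ∀ w, InjOn F (ball w (rh (GR.fp n c) k w)) := by
    intro w x hx y hy hxy
    rw [mem_ball] at hx hy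
    have hm : max (dist x w) (dist y w) < sSup {s : ℝ | 0 ≤ s ∧ InjOn F (ball w s)} := max_lt hx hy
    obtain ⟨s, hs, hlt⟩ := exists_lt_of_lt_csSup ⟨0, hne w⟩ hm
    exact hs.2 (mem_ball.mpr (lt_of_le_of_lt (le_max_left _ _) hlt)) (mem_ball.mpr (lt_of_le_of_lt (le_max_right _ _) hlt)) hxy
  have h3 : ∀ (w : ℂ) (s : ℝ), InjOn F (ball w s) → s ≤ rh (GR.fp n c) k w := by
    intro w s hs
    by_cases h : 0 ≤ s
    · exact le_csSup (hbdd w) ⟨h, hs⟩
    · exact (not_le.mp h).le.trans (h0 w)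
  have h4 : ∀ w w' : ℂ, rh (GR.fp n c) k w - ‖w - w'‖ ≤ rh (GR.fp n c) k w' := by
    intro w w'
    apply h3
    apply (h2 w).mono
    apply ball_subset_ball'
    rw [dist_comm, dist_eq_norm]
    linarith
  refine ⟨fun w => ⟨h0 w, h1 w, h2 w⟩, h3, ?_, ?_, ?_⟩
  · intro w w'
    rw [abs_le]
    have e1 := h4 w w'
    have e2 := h4 w' w
    rw [norm_sub_rev] at e2
    constructor <;> linarith
  · intro w hw
    obtain ⟨s, hs, hi⟩ := RHO_loc F (hdiff k) w hw
    exact lt_of_lt_of_le hs (h3 w s hi)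
  · intro w hw hi
    have := h3 w _ hi
    linarith

end WPA
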